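import Pool.Agent.Helper14.MR.Final

/-!
# Maximin-share rank against feedback vertex set number (Q1)

For every `m ≥ 16` the disjoint union `K m` of `m` copies of `K₄` has maximin-share rank at
most `2 m - 1`, while its feedback vertex set number is `2 m`.  So there is a finite graph whose
maximin-share rank is smaller than its feedback vertex set number.

The definitions (cake, pieces, connected pieces, valuations, partitions, shares, rank) are in
`Pool.Agent.Helper14.MR.Cake` and `Pool.Agent.Helper14.MR.Share`.
-/

namespace Pool.Agent.Results.MP_ee2dc8_co.MmsRankLtFvs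

open Pool.Agent.Helper14.MR

theorem result (m : ℕ) (hm : 16 ≤ m) :
    Admissible (K m) (2 * m - 1) ∧ fvsNum (K m) = 2 * m ∧ mmsRank (K m) < fvsNum (K m) :=
  Pool.Agent.Helper14.MR.final m hm

end Pool.Agent.Results.MP_ee2dc8_co.MmsRankLtFvs
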